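import Pool.Agent.MP_cce4c9_lc.H7.BaseA

/-! Proper valuation rings of a function field that contain the constants are discrete. -/

set_option autoImplicit false

open WithZero Polynomial
open scoped IntermediateField

namespace Pool.Agent.MP_cce4c9_lc.H70

open Pool.Agent.MP_cce4c9_lc.H87 Pool.Agent.MP_cce4c9_lc.H7

section Val

variable {k K Γ : Type} [Field k] [Field K] [Algebra k K] [LinearOrderedCommGroupWithZero Γ]
  {w : Valuation K Γ}

theorem const_one (hc : ∀ c : k, w (algebraMap k K c) ≤ 1) {c : k} (h0 : c ≠ 0) :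
    w (algebraMap k K c) = 1 := by
  refine le_antisymm (hc c) ?_
  have h1 : w (algebraMap k K c) * w (algebraMap k K c⁻¹) = 1 := by
    rw [← map_mul, ← map_mul, mul_inv_cancel₀ h0, map_one, map_one]
  rw [← h1]
  exact mul_le_of_le_one_right' (hc _)

theorem aeval_le (hc : ∀ c : k, w (algebraMap k K c) ≤ 1) {x : K} (hx : w x ≤ 1) (p : k[X]) :
    w (aeval x p) ≤ 1 := by
  induction p using Polynomial.induction_on' with
  | add p q hp hq => rw [map_add]; exact (w.map_add _ _).trans (max_le hp hq)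
  | monomial n a =>
    rw [aeval_monomial, map_mul, map_pow]
    exact mul_le_one' (hc a) (pow_le_one' hx n)

theorem aeval_val (hc : ∀ c : k, w (algebraMap k K c) ≤ 1) {x : K} (hx : w x < 1) {p : k[X]}
    (hp : p ≠ 0) : ∃ n : ℕ, w (aeval x p) = w x ^ n := by
  obtain ⟨q, hq, hd⟩ := exists_eq_pow_rootMultiplicity_mul_and_not_dvd p hp 0
  refine ⟨rootMultiplicity 0 p, ?_⟩
  have h0 : q.coeff 0 ≠ 0 := by
    rw [map_zero, sub_zero, X_dvd_iff] at hd
    exact hd
  have h1 : w (aeval x q) = 1 := by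
    rw [← divX_mul_X_add q, map_add, map_mul, aeval_X, aeval_C, w.map_add_eq_of_lt_right,
      const_one hc h0]
    rw [const_one hc h0, map_mul]
    exact (mul_le_of_le_one_left' (aeval_le hc hx.le _)).trans_lt hx
  conv_lhs => rw [hq]
  rw [map_mul, map_mul, h1, mul_one, map_zero, sub_zero, map_pow, aeval_X, map_pow]

theorem adjoin_val (hc : ∀ c : k, w (algebraMap k K c) ≤ 1) {x : K} (hx : w x < 1)
    {c : K} (hm : c ∈ k⟮x⟯) (h0 : c ≠ 0) : ∃ n : ℤ, w c = w x ^ n := by
  obtain ⟨p, q, rfl⟩ := (IntermediateField.mem_adjoin_simple_iff k c).1 hm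
  have hp : p ≠ 0 := by rintro rfl; simp at h0
  have hq : q ≠ 0 := by rintro rfl; simp at h0
  obtain ⟨a, ha⟩ := aeval_val hc hx hp
  obtain ⟨b, hb⟩ := aeval_val hc hx hq
  by_cases hx0 : w x = 0
  · have hx' : x = 0 := by simpa using hx0
    have h1 : ∀ r : k[X], aeval x r = algebraMap k K (r.coeff 0) := fun r => by
      rw [hx', ← coeff_zero_eq_aeval_zero']
    refine ⟨0, ?_⟩
    rw [h1, h1, ← map_div₀] at h0 ⊢
    rw [zpow_zero]
    exact const_one hc fun e => h0 (by rw [e, map_zero])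
  · exact ⟨a - b, by rw [map_div₀, ha, hb, zpow_sub₀ hx0, zpow_natCast, zpow_natCast]⟩

theorem indep (hc : ∀ c : k, w (algebraMap k K c) ≤ 1) {x : K} (hx : w x < 1) (hx0 : x ≠ 0)
    {ι : Type} (y : ι → K) (hy : ∀ i, w x < w (y i) ∧ w (y i) ≤ 1)
    (hi : Function.Injective fun i => w (y i)) : LinearIndependent k⟮x⟯ y := by
  classical
  have hp : 0 < w x := zero_lt_iff.2 (by simpa using hx0)
  rw [linearIndependent_iff']
  intro s g hs
  by_contra hne
  push Not at hne
  obtain ⟨i₀, hi₀, hg₀⟩ := hne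
  obtain ⟨j, hj, hmax⟩ := s.exists_max_image (fun i => w (g i • y i)) ⟨i₀, hi₀⟩
  have hsm : ∀ i, w (g i • y i) = w (g i : K) * w (y i) := fun i => by
    rw [← map_mul]; rfl
  have hy0 : ∀ i, 0 < w (y i) := fun i => hp.trans (hy i).1
  have hpos : 0 < w (g j • y j) := by
    refine lt_of_lt_of_le ?_ (hmax i₀ hi₀)
    rw [hsm]
    exact mul_pos (zero_lt_iff.2 (by simpa using hg₀)) (hy0 i₀)
  have key : ∀ (a b : ℤ) (i l : ι), a < b → w x ^ b * w (y i) < w x ^ a * w (y l) := by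
    intro a b i l hab
    calc w x ^ b * w (y i) ≤ w x ^ b := mul_le_of_le_one_right' (hy i).2
      _ ≤ w x ^ (a + 1) := zpow_le_zpow_right_of_le_one₀ hp hx.le hab
      _ = w x ^ a * w x := zpow_add_one₀ hp.ne' a
      _ < w x ^ a * w (y l) := mul_lt_mul_of_pos_left (hy l).1 (zpow_pos hp a)
  have hlt : ∀ i ∈ s \ {j}, w (g i • y i) < w (g j • y j) := by
    intro i hi'
    rw [Finset.mem_sdiff, Finset.mem_singleton] at hi'
    refine lt_of_le_of_ne (hmax i hi'.1) fun e => hi'.2 ?_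
    have hgj : (g j : K) ≠ 0 := fun h => by rw [hsm, h] at hpos; simp at hpos
    have hgi : (g i : K) ≠ 0 := fun h => by rw [← e, hsm, h] at hpos; simp at hpos
    obtain ⟨a, ha⟩ := adjoin_val hc hx (g i).2 hgi
    obtain ⟨b, hb⟩ := adjoin_val hc hx (g j).2 hgj
    rw [hsm, hsm, ha, hb] at e
    rcases lt_trichotomy a b with h | h | h
    · exact absurd e (key a b j i h).ne'
    · subst h
      exact hi (mul_left_cancel₀ (zpow_pos hp a).ne' e)
    · exact absurd e (key b a i j h).ne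
  have := w.map_sum_eq_of_lt hj hlt
  rw [hs, map_zero] at this
  exact hpos.ne this

theorem vals_finite [IsAlgClosed k] (hK : IsFF k K) (hc : ∀ c : k, w (algebraMap k K c) ≤ 1)
    {x : K} (hx : w x < 1) (hx0 : x ≠ 0) :
    {γ : Γ | (∃ y, w y = γ) ∧ w x < γ ∧ γ ≤ 1}.Finite := by
  have hn : x ∉ Set.range (algebraMap k K) := by
    rintro ⟨c, rfl⟩
    exact hx.ne (const_one hc fun e => hx0 (by rw [e, map_zero]))
  have := hK.fd hn
  set S := {γ : Γ | (∃ y, w y = γ) ∧ w x < γ ∧ γ ≤ 1}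
  have hch : ∀ γ : S, ∃ y, w y = γ := fun γ => γ.2.1
  choose y hy using hch
  have hl : LinearIndependent k⟮x⟯ y :=
    indep hc hx hx0 y (fun i => by rw [hy]; exact i.2.2) fun i j e =>
      Subtype.ext (by simpa only [hy] using e)
  exact hl.finite

theorem exists_unif [IsAlgClosed k] (hK : IsFF k K) (hc : ∀ c : k, w (algebraMap k K c) ≤ 1)
    {x : K} (hx : w x < 1) (hx0 : x ≠ 0) :
    ∃ t : K, t ≠ 0 ∧ w t < 1 ∧ ∀ z : K, z ≠ 0 → ∃ n : ℤ, w z = w t ^ n := by
  have hp : 0 < w x := zero_lt_iff.2 (by simpa using hx0)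
  have hf : {γ : Γ | (∃ y, w y = γ) ∧ w x ≤ γ ∧ γ < 1}.Finite :=
    ((vals_finite hK hc hx hx0).insert (w x)).subset fun γ h => by
      rcases h.2.1.eq_or_lt with e | e
      · exact Or.inl e.symm
      · exact Or.inr ⟨h.1, e, h.2.2.le⟩
  obtain ⟨γ, ⟨⟨t, rfl⟩, ht1, ht2⟩, hmax⟩ :=
    Set.exists_max_image _ id hf ⟨w x, ⟨x, rfl⟩, le_rfl, hx⟩
  have htp : 0 < w t := hp.trans_le ht1
  have ht0 : t ≠ 0 := by rintro rfl; simp at htp
  have hle : ∀ z : K, w z < 1 → w z ≤ w t := fun z hz => by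
    rcases le_total (w x) (w z) with h | h
    · exact hmax _ ⟨⟨z, rfl⟩, h, hz⟩
    · exact h.trans ht1
  have main : ∀ z : K, z ≠ 0 → w z < 1 → ∃ n : ℤ, w z = w t ^ n := by
    intro z hz0 hz
    have hex : ∃ n : ℕ, w t ^ n ≤ w z := by
      by_contra hno
      push Not at hno
      refine Set.infinite_of_injective_forall_mem (f := fun n : ℕ => w t ^ n)
        (pow_right_strictAnti₀ htp ht2).injective (fun n => ?_) (vals_finite hK hc hz hz0)
      exact ⟨⟨t ^ n, map_pow _ _ _⟩, hno n, pow_le_one' ht2.le n⟩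
    classical
    have h1 := Nat.find_spec hex
    rcases hm : Nat.find hex with _ | m
    · rw [hm, pow_zero] at h1
      exact absurd hz h1.not_gt
    · have h2 : w z < w t ^ m := not_le.1 (Nat.find_min hex (by omega))
      rw [hm] at h1
      refine ⟨(m + 1 : ℕ), le_antisymm ?_ (by rwa [zpow_natCast])⟩
      have h3 : w (z / t ^ m) ≤ w t := hle _ (by
        rw [map_div₀, map_pow]; exact (div_lt_one₀ (pow_pos htp m)).2 h2)
      rw [map_div₀, map_pow, div_le_iff₀ (pow_pos htp m)] at h3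
      rwa [zpow_natCast, pow_succ']
  refine ⟨t, ht0, ht2, fun z hz0 => ?_⟩
  rcases lt_trichotomy (w z) 1 with h | h | h
  · exact main z hz0 h
  · exact ⟨0, by rw [h, zpow_zero]⟩
  · obtain ⟨n, hn⟩ := main z⁻¹ (inv_ne_zero hz0) (by
      rw [map_inv₀]; exact inv_lt_one_of_one_lt₀ h)
    exact ⟨-n, by rw [zpow_neg, ← hn, map_inv₀, inv_inv]⟩

theorem exists_place (hc : ∀ c : k, w (algebraMap k K c) ≤ 1) {t : K} (ht0 : t ≠ 0)
    (ht : w t < 1) (H : ∀ z : K, z ≠ 0 → ∃ n : ℤ, w z = w t ^ n) :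
    ∃ v : Place k K, ∀ h, w h ≤ 1 ↔ v.val h ≤ 1 := by
  classical
  have htp : 0 < w t := zero_lt_iff.2 (by simpa using ht0)
  have hanti : StrictAnti fun n : ℤ => w t ^ n := zpow_right_strictAnti₀ htp ht
  choose! N hN using H
  let f : K → ℤᵐ⁰ := fun z => if z = 0 then 0 else exp (-N z)
  have hf0 : f 0 = 0 := if_pos rfl
  have hf : ∀ (z : K) (n : ℤ), w z = w t ^ n → f z = exp (-n) := fun z n h => by
    have hz : z ≠ 0 := by
      rintro rfl
      rw [map_zero] at h
      exact (zpow_pos htp n).ne h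
    have : N z = n := hanti.injective ((hN z hz).symm.trans h)
    simp only [f, if_neg hz, this]
  have hf1 : f 1 = 1 := by simpa using hf 1 0 (by simp)
  have hle : ∀ a b : K, f a ≤ f b ↔ w a ≤ w b := fun a b => by
    by_cases ha : a = 0
    · subst ha; rw [hf0, map_zero]; simp
    by_cases hb : b = 0
    · subst hb
      rw [hf0, map_zero, hf a _ (hN a ha)]
      simp [ha]
    rw [hf a _ (hN a ha), hf b _ (hN b hb), hN a ha, hN b hb, exp_le_exp, neg_le_neg_iff]
    exact hanti.le_iff_ge.symm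
  let V : Valuation K ℤᵐ⁰ :=
    { toFun := f
      map_zero' := hf0
      map_one' := hf1
      map_mul' := fun a b => by
        by_cases ha : a = 0
        · subst ha; rw [zero_mul, hf0, zero_mul]
        by_cases hb : b = 0
        · subst hb; rw [mul_zero, hf0, mul_zero]
        rw [hf a _ (hN a ha), hf b _ (hN b hb), hf (a * b) (N a + N b)
          (by rw [map_mul, hN a ha, hN b hb, zpow_add₀ htp.ne']), neg_add, exp_add]
      map_add_le_max' := fun a b => by
        rw [le_max_iff, hle, hle]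
        exact w.map_add' a b }
  refine ⟨⟨V, fun γ => ?_, fun a ha => ?_⟩, fun h => ?_⟩
  · by_cases hγ : γ = 0
    · exact ⟨0, hγ ▸ hf0⟩
    · refine ⟨t ^ (-log γ), (hf _ _ (map_zpow₀ _ _ _)).trans ?_⟩
      rw [neg_neg, exp_log hγ]
  · exact (hf _ 0 (by rw [const_one hc ha, zpow_zero])).trans (by simp)
  · show w h ≤ 1 ↔ f h ≤ 1
    rw [← hf1, hle, map_one]

end Val

theorem dvr : StmtDVR := by
  intro k K _ _ _ _ hK O hO hT
  have hc : ∀ c : k, O.valuation (algebraMap k K c) ≤ 1 := fun c =>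
    (O.valuation_le_one_iff _).2 (hO c)
  obtain ⟨u, hu⟩ : ∃ u : K, u ∉ O := by
    by_contra h
    push Not at h
    exact hT (eq_top_iff.2 fun u _ => h u)
  have hu0 : u ≠ 0 := by rintro rfl; exact hu O.zero_mem
  have hx : O.valuation u⁻¹ < 1 := by
    rw [map_inv₀]
    exact inv_lt_one_of_one_lt₀ (not_le.1 fun h => hu ((O.valuation_le_one_iff _).1 h))
  obtain ⟨t, ht0, ht, H⟩ := exists_unif hK hc hx (inv_ne_zero hu0)
  obtain ⟨v, hv⟩ := exists_place hc ht0 ht H
  exact ⟨v, fun h => (O.valuation_le_one_iff h).symm.trans (hv h)⟩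

end Pool.Agent.MP_cce4c9_lc.H70
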