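import Pool.Agent.MP_cce4c9_lc.H87.SpecR

/-!
Degrees of the entries of the Taylor matrix.
-/

set_option autoImplicit false

open Polynomial

namespace Pool.Agent.MP_cce4c9_lc.H70

open Pool.Agent.MP_cce4c9_lc.H87

section

variable {F : Type} [CommRing F] {v : ℕ}

/-- Total degree at most `n`, where the zero polynomial has every degree. -/
def Dg (n : ℤ) (p : MvPolynomial (Fin v) F) : Prop := p = 0 ∨ (p.totalDegree : ℤ) ≤ n

theorem Dg.zero (n : ℤ) : Dg n (0 : MvPolynomial (Fin v) F) := Or.inl rfl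

theorem Dg.mono {n n' : ℤ} {p : MvPolynomial (Fin v) F} (h : Dg n p) (hn : n ≤ n') : Dg n' p :=
  h.imp id fun h => h.trans hn

theorem Dg.add {n : ℤ} {p q : MvPolynomial (Fin v) F} (hp : Dg n p) (hq : Dg n q) :
    Dg n (p + q) := by
  rcases hp with rfl | hp
  · rwa [zero_add]
  rcases hq with rfl | hq
  · rw [add_zero]; exact Or.inr hp
  right
  have := MvPolynomial.totalDegree_add p q
  have h2 : ((p + q).totalDegree : ℤ) ≤ max (p.totalDegree : ℤ) q.totalDegree := by
    exact_mod_cast this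
  exact h2.trans (max_le hp hq)

theorem Dg.neg {n : ℤ} {p : MvPolynomial (Fin v) F} (hp : Dg n p) : Dg n (-p) := by
  rcases hp with rfl | hp
  · rw [neg_zero]; exact Dg.zero n
  · right; rwa [MvPolynomial.totalDegree_neg]

theorem Dg.mul {n n' : ℤ} {p q : MvPolynomial (Fin v) F} (hp : Dg n p) (hq : Dg n' q) :
    Dg (n + n') (p * q) := by
  rcases hp with rfl | hp
  · rw [zero_mul]; exact Dg.zero _
  rcases hq with rfl | hq
  · rw [mul_zero]; exact Dg.zero _
  right
  have h2 : ((p * q).totalDegree : ℤ) ≤ (p.totalDegree : ℤ) + q.totalDegree := by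
    exact_mod_cast MvPolynomial.totalDegree_mul p q
  exact h2.trans (add_le_add hp hq)

theorem Dg.sum {ι : Type} {n : ℤ} (s : Finset ι) (g : ι → MvPolynomial (Fin v) F)
    (h : ∀ i ∈ s, Dg n (g i)) : Dg n (∑ i ∈ s, g i) :=
  Finset.sum_induction g (Dg n) (fun _ _ => Dg.add) (Dg.zero n) h

theorem Dg.C (c : F) : Dg 0 (MvPolynomial.C c : MvPolynomial (Fin v) F) := by
  right
  rw [MvPolynomial.totalDegree_C]
  rfl

theorem Dg.one : Dg 0 (1 : MvPolynomial (Fin v) F) := by
  have := Dg.C (v := v) (1 : F)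
  rwa [map_one] at this

theorem Dg.pow {n : ℤ} {p : MvPolynomial (Fin v) F} (hp : Dg n p) (k : ℕ) :
    Dg (k * n) (p ^ k) := by
  induction k with
  | zero => simpa using Dg.one
  | succ k ih =>
    rw [pow_succ]
    refine (ih.mul hp).mono (le_of_eq ?_)
    push_cast
    ring

theorem Dg.ex (i : ℕ) : Dg 1 (ex (MvPolynomial.X : Fin v → MvPolynomial (Fin v) F) i) := by
  unfold H87.ex
  split_ifs with h
  · right
    have := MvPolynomial.totalDegree_monomial_le (R := F) (Finsupp.single (⟨i, h⟩ : Fin v) 1) 1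
    rw [Finsupp.sum_single_index rfl] at this
    exact_mod_cast this
  · exact Dg.zero _

theorem Dg.eval (g : F[X]) (n : ℕ) (hg : g.natDegree ≤ n) {x : MvPolynomial (Fin v) F}
    (hx : Dg 1 x) :
    Dg n ((g.map (MvPolynomial.C : F →+* MvPolynomial (Fin v) F)).eval x) := by
  rw [eval_map, eval₂_eq_sum_range]
  refine Dg.sum _ _ fun i hi => ((Dg.C _).mul (hx.pow i)).mono ?_
  have := Finset.mem_range.1 hi
  omega

/-- Weighted degree bound for all coefficients. -/
def Wd (d : ℕ) (a : ℤ) (g : (MvPolynomial (Fin v) F)[X]) : Prop :=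
  ∀ r : ℕ, Dg (a + 2 * r * d) (g.coeff r)

variable {d : ℕ}

theorem Wd.mono {a a' : ℤ} {g : (MvPolynomial (Fin v) F)[X]} (h : Wd d a g) (ha : a ≤ a') :
    Wd d a' g := fun r => (h r).mono (by omega)

theorem Wd.zero (a : ℤ) : Wd d a (0 : (MvPolynomial (Fin v) F)[X]) := fun r => by
  rw [coeff_zero]; exact Dg.zero _

theorem Wd.add {a : ℤ} {g h : (MvPolynomial (Fin v) F)[X]} (hg : Wd d a g) (hh : Wd d a h) :
    Wd d a (g + h) := fun r => by
  rw [coeff_add]; exact (hg r).add (hh r)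

theorem Wd.sub {a : ℤ} {g h : (MvPolynomial (Fin v) F)[X]} (hg : Wd d a g) (hh : Wd d a h) :
    Wd d a (g - h) := fun r => by
  rw [coeff_sub, sub_eq_add_neg]; exact (hg r).add (hh r).neg

theorem Wd.mul {a b : ℤ} {g h : (MvPolynomial (Fin v) F)[X]} (hg : Wd d a g) (hh : Wd d b h) :
    Wd d (a + b) (g * h) := fun r => by
  rw [coeff_mul]
  refine Dg.sum _ _ fun p hp => ((hg p.1).mul (hh p.2)).mono (le_of_eq ?_)
  have hr : p.1 + p.2 = r := Finset.HasAntidiagonal.mem_antidiagonal.1 hp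
  rw [← hr]
  push_cast
  ring

theorem Wd.C {a : ℤ} {c : MvPolynomial (Fin v) F} (hc : Dg a c) : Wd d a (C c) := fun r => by
  rw [coeff_C]
  split_ifs with h
  · subst h
    simpa using hc
  · exact Dg.zero _

theorem Wd.one : Wd d 0 (1 : (MvPolynomial (Fin v) F)[X]) := by
  have := Wd.C (d := d) (Dg.one (F := F) (v := v))
  rwa [map_one] at this

theorem Wd.X : Wd d (-(2 * d)) (X : (MvPolynomial (Fin v) F)[X]) := fun r => by
  rw [coeff_X]
  split_ifs with h
  · subst h
    refine Dg.one.mono (le_of_eq ?_)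
    push_cast
    ring
  · exact Dg.zero _

theorem Wd.pow {a : ℤ} {g : (MvPolynomial (Fin v) F)[X]} (hg : Wd d a g) (k : ℕ) :
    Wd d (k * a) (g ^ k) := by
  induction k with
  | zero => simpa using Wd.one
  | succ k ih =>
    rw [pow_succ]
    refine (ih.mul hg).mono (le_of_eq ?_)
    push_cast
    ring

theorem Wd.sum {ι : Type} {a : ℤ} (s : Finset ι) (g : ι → (MvPolynomial (Fin v) F)[X])
    (h : ∀ i ∈ s, Wd d a (g i)) : Wd d a (∑ i ∈ s, g i) :=
  Finset.sum_induction g (Wd d a) (fun _ _ => Wd.add) (Wd.zero a) h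

theorem Wd.prod (n : ℕ) (a : ℤ) (g : ℕ → (MvPolynomial (Fin v) F)[X])
    (h : ∀ i, Wd d a (g i)) : Wd d (n * a) (∏ i ∈ Finset.range n, g i) := by
  induction n with
  | zero => simpa using Wd.one
  | succ n ih =>
    rw [Finset.prod_range_succ]
    refine (ih.mul (h n)).mono (le_of_eq ?_)
    push_cast
    ring

end

theorem taylor_rest {R : Type} [CommRing R] (G : R[X]) (x : R) (e : R[X]) (n : ℕ)
    (hn : G.natDegree ≤ n) :
    G.comp (C x + e) - C (G.eval x) - C ((derivative G).eval x) * e =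
      ∑ i ∈ Finset.range n, C ((hasseDeriv (i + 1 + 1) G).eval x) * e ^ (i + 1 + 1) := by
  have h1 : G.comp (C x + e) = (taylor x G).comp e := by
    rw [taylor_apply, comp_assoc, add_comp, X_comp, C_comp, add_comm]
  have h2 : (taylor x G).natDegree < n + 1 + 1 := by
    rw [natDegree_taylor]
    omega
  rw [h1, comp, eval₂_eq_sum_range' _ h2, Finset.sum_range_succ', Finset.sum_range_succ']
  simp only [taylor_coeff, zero_add, hasseDeriv_one', hasseDeriv_zero', pow_one, pow_zero, mul_one]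
  ring

theorem hasse_map {R S : Type} [CommRing R] [CommRing S] (φ : R →+* S) (g : R[X]) (i : ℕ) :
    hasseDeriv i (g.map φ) = (hasseDeriv i g).map φ := by
  ext n
  simp [hasseDeriv_coeff]

theorem wd_eta {F : Type} [CommRing F] {v : ℕ} (f : F[X]) (d : ℕ) (hf : f.natDegree ≤ d)
    (hd : 0 < d) {x z : MvPolynomial (Fin v) F} (hx : Dg 1 x) (hz : Dg 1 z) (n : ℕ) :
    Wd d (-d) (H87.eta (f.map (MvPolynomial.C : F →+* MvPolynomial (Fin v) F)) x z n) := by
  induction n with
  | zero => exact Wd.zero _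
  | succ n ih =>
    rw [H87.eta, taylor_rest _ _ _ d (natDegree_map_le.trans hf)]
    have h : Wd d (-d - 1) (X - ∑ i ∈ Finset.range d,
        C ((hasseDeriv (i + 1 + 1)
          (f.map (MvPolynomial.C : F →+* MvPolynomial (Fin v) F))).eval x) *
          H87.eta (f.map (MvPolynomial.C : F →+* MvPolynomial (Fin v) F)) x z n ^ (i + 1 + 1)) := by
      refine (Wd.X.mono (by omega)).sub (Wd.sum _ _ fun i _ => ?_)
      rw [hasse_map]
      have h1 : (hasseDeriv (i + 1 + 1) f).natDegree ≤ d - 1 :=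
        (natDegree_hasseDeriv_le f _).trans (by omega)
      refine ((Wd.C (Dg.eval _ _ h1 hx)).mul (ih.pow (i + 1 + 1))).mono ?_
      have h2 : ((d - 1 : ℕ) : ℤ) = d - 1 := by omega
      have h3 : (0 : ℤ) ≤ (i : ℤ) * d := by positivity
      rw [h2]
      push_cast
      nlinarith
    refine ((Wd.C hz).mul h).mono (by omega)

theorem degt : StmtDEGT := by
  intro F _ f d m l v ρ e J hf hd hρ
  have h : Wd d (((l * N0 d m - e - ds d m J : ℕ) : ℤ) * d + m * d)
      (tcol (f.map (MvPolynomial.C : F →+* MvPolynomial (Fin v) F)) d m (l * mm d m)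
        (xs m (ex MvPolynomial.X) ρ.1) (zs m (ex MvPolynomial.X) ρ.1)
        (l * N0 d m - e - ds d m J) J) := by
    unfold tcol
    refine Wd.mul (Wd.pow (Wd.add (Wd.C (Dg.eval f d hf (Dg.ex _))) (Wd.X.mono (by omega))) _)
      (Wd.prod m d _ fun i => ?_)
    have h1 := (Wd.add (Wd.C (d := d) (Dg.ex (F := F) (v := v) (2 * m * ρ.1 + i)))
      ((wd_eta f d hf hd (Dg.ex (2 * m * ρ.1 + i)) (Dg.ex (2 * m * ρ.1 + m + i))
        (l * mm d m)).mono (by omega))).pow (dig d J i)
    refine h1.mono ?_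
    have : dig d J i < d := Nat.mod_lt _ hd
    omega
  rcases h ρ.2 with h0 | h0
  · unfold TT
    rw [h0, MvPolynomial.totalDegree_zero]
    exact Nat.zero_le _
  · have h1 : (l * N0 d m - e - ds d m J) * d + m * d + 2 * ρ.2 * d ≤ dE d m l := by
      unfold dE
      rw [← add_mul, ← add_mul]
      exact Nat.mul_le_mul_right d (by omega)
    unfold TT
    have h2 : (((l * N0 d m - e - ds d m J) * d + m * d + 2 * ρ.2 * d : ℕ) : ℤ) =
        ((l * N0 d m - e - ds d m J : ℕ) : ℤ) * d + m * d + 2 * ρ.2 * d := by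
      rw [Nat.cast_add, Nat.cast_add, Nat.cast_mul, Nat.cast_mul, Nat.cast_mul, Nat.cast_mul]
      rfl
    rw [← h2] at h0
    exact (Int.ofNat_le.1 h0).trans h1

end Pool.Agent.MP_cce4c9_lc.H70
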